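import Pool.Agent.W167.RN.Ext

set_option autoImplicit false

/-! Counting vertex sets with a large internal degree. -/

namespace Pool.Agent.W167.RN

open Finset

variable {V : Type*} [DecidableEq V]

open Classical in
/-- `k`-sets with a vertex of large internal degree -/
noncomputable def bad (A : V → V → ℝ) (U : Finset V) (k : ℕ) (θ : ℝ) : Finset (Finset V) :=
  (U.powersetCard k).filter (fun S => ∃ v ∈ S, θ * k < dg A S v)

lemma mem_bad {A : V → V → ℝ} {U : Finset V} {k : ℕ} {θ : ℝ} {S : Finset V} :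
    S ∈ bad A U k θ ↔ S ∈ U.powersetCard k ∧ ∃ v ∈ S, θ * k < dg A S v := by
  unfold bad
  rw [Finset.mem_filter]

lemma card_bad (A : V → V → ℝ) (h0 : ∀ v, A v v = 0) (hA : ∀ u v, 0 ≤ A u v) {L : ℝ}
    (hL : ∀ u v, A u v ≤ L) (U : Finset V) {α' : ℝ} (hα : 0 ≤ α')
    (hdeg : ∀ v ∈ U, dg A U v ≤ α' * U.card) {t : ℝ} (ht : 0 ≤ t) (htL : t * L ≤ 1) (θ : ℝ)
    (k : ℕ) (hk : 1 ≤ k) :
    ((bad A U k θ).card : ℝ) ≤ (U.card : ℝ) ^ k / (k.factorial : ℝ) *
      (k * Real.exp (k * (t * α' + t ^ 2 * L ^ 2 - t * θ))) := by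
  classical
  obtain ⟨j, rfl⟩ : ∃ j, k = j + 1 := ⟨k - 1, by omega⟩
  set m : ℝ := (U.card : ℝ) with hm
  set g : ℝ := t * α' + t ^ 2 * L ^ 2 with hg
  have hm0 : 0 ≤ m := Nat.cast_nonneg _
  have hg0 : 0 ≤ g := by positivity
  -- one vertex
  have h1 : ∀ v ∈ U, (((U.powersetCard (j + 1)).filter
      (fun S => v ∈ S ∧ θ * ((j + 1 : ℕ) : ℝ) < dg A S v)).card : ℝ) ≤
      Real.exp (-(t * θ * ((j + 1 : ℕ) : ℝ))) *
        ((m * Real.exp g) ^ j / (j.factorial : ℝ)) := by
    intro v hv
    have h2 : (((U.powersetCard (j + 1)).filter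
        (fun S => v ∈ S ∧ θ * ((j + 1 : ℕ) : ℝ) < dg A S v)).card : ℝ) ≤
        ∑ S ∈ (U.powersetCard (j + 1)).filter (fun S => v ∈ S),
          Real.exp (-(t * θ * ((j + 1 : ℕ) : ℝ))) * ∏ u ∈ S, Real.exp (t * A v u) := by
      rw [← Finset.filter_filter, Finset.card_filter]
      push_cast
      apply Finset.sum_le_sum
      intro S _
      split_ifs with h
      · rw [← Real.exp_sum, ← Real.exp_add, ← Finset.mul_sum]
        apply Real.one_le_exp
        have h3 : t * (θ * ((j : ℝ) + 1)) ≤ t * dg A S v := by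
          apply mul_le_mul_of_nonneg_left _ ht
          push_cast at h
          exact h.le
        unfold dg at h3
        linarith
      · positivity
    refine h2.trans ?_
    rw [← Finset.mul_sum]
    apply mul_le_mul_of_nonneg_left _ (Real.exp_pos _).le
    refine (sum_containing (fun u => Real.exp (t * A v u)) (fun u => (Real.exp_pos _).le) U v j).trans ?_
    have h4 : Real.exp (t * A v v) = 1 := by rw [h0, mul_zero, Real.exp_zero]
    simp only [h4, one_mul]
    apply div_le_div_of_nonneg_right _ (by positivity)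
    apply pow_le_pow_left₀ (Finset.sum_nonneg fun u _ => (Real.exp_pos _).le)
    have h5 : ∀ u, Real.exp (t * A v u) ≤ 1 + t * A v u + t ^ 2 * L ^ 2 := by
      intro u
      have h6 : 0 ≤ t * A v u := mul_nonneg ht (hA v u)
      have h7 : t * A v u ≤ t * L := mul_le_mul_of_nonneg_left (hL v u) ht
      have h8 := Real.abs_exp_sub_one_sub_id_le (x := t * A v u) (by
        rw [abs_of_nonneg h6]
        linarith)
      have h9 := (abs_le.1 h8).2
      have h10 : (t * A v u) ^ 2 ≤ (t * L) ^ 2 := pow_le_pow_left₀ h6 h7 2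
      nlinarith
    calc ∑ u ∈ U, Real.exp (t * A v u) ≤ ∑ u ∈ U, (1 + t * A v u + t ^ 2 * L ^ 2) :=
          Finset.sum_le_sum fun u _ => h5 u
      _ = m + t * dg A U v + m * (t ^ 2 * L ^ 2) := by
          rw [Finset.sum_add_distrib, Finset.sum_add_distrib, ← Finset.mul_sum, Finset.sum_const,
            Finset.sum_const, nsmul_eq_mul, nsmul_eq_mul, mul_one]
          rfl
      _ ≤ m * (1 + g) := by
          have := mul_le_mul_of_nonneg_left (hdeg v hv) ht
          rw [hg]
          nlinarith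
      _ ≤ m * Real.exp g := by
          apply mul_le_mul_of_nonneg_left _ hm0
          have := Real.add_one_le_exp g
          linarith
  -- union
  have h2 : ((bad A U (j + 1) θ).card : ℝ) ≤ ∑ v ∈ U, (((U.powersetCard (j + 1)).filter
      (fun S => v ∈ S ∧ θ * ((j + 1 : ℕ) : ℝ) < dg A S v)).card : ℝ) := by
    have h3 : bad A U (j + 1) θ ⊆ U.biUnion (fun v => (U.powersetCard (j + 1)).filter
      (fun S => v ∈ S ∧ θ * ((j + 1 : ℕ) : ℝ) < dg A S v)) := by
      intro S hS
      unfold bad at hS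
      rw [Finset.mem_filter] at hS
      obtain ⟨hS1, v, hv, hS2⟩ := hS
      rw [Finset.mem_biUnion]
      refine ⟨v, (Finset.mem_powersetCard.1 hS1).1 hv, ?_⟩
      rw [Finset.mem_filter]
      exact ⟨hS1, hv, hS2⟩
    have h4 := (Finset.card_le_card h3).trans Finset.card_biUnion_le
    exact_mod_cast h4
  refine h2.trans ((Finset.sum_le_sum h1).trans ?_)
  rw [Finset.sum_const, nsmul_eq_mul]
  have hf : ((j + 1).factorial : ℝ) = (j + 1) * (j.factorial : ℝ) := by
    rw [Nat.factorial_succ]; push_cast; ring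
  have hf0 : (0 : ℝ) < (j.factorial : ℝ) := by exact_mod_cast Nat.factorial_pos j
  have h5 : m * (Real.exp (-(t * θ * ((j + 1 : ℕ) : ℝ))) *
      ((m * Real.exp g) ^ j / (j.factorial : ℝ))) =
      m ^ (j + 1) / ((j + 1).factorial : ℝ) * (((j + 1 : ℕ) : ℝ) *
        (Real.exp (-(t * θ * ((j + 1 : ℕ) : ℝ))) * Real.exp (j * g))) := by
    rw [hf, mul_pow, ← Real.exp_nat_mul]
    push_cast
    field_simp
    ring
  rw [h5]
  apply mul_le_mul_of_nonneg_left _ (by positivity)
  apply mul_le_mul_of_nonneg_left _ (by positivity)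
  rw [← Real.exp_add]
  apply Real.exp_le_exp.2
  push_cast
  nlinarith

/-- comparison of `m ^ k / k!` with the binomial coefficient -/
lemma choose_ge (m k : ℕ) (hm : 1 ≤ m) :
    (m : ℝ) ^ k / (k.factorial : ℝ) * (1 - (k : ℝ) ^ 2 / m) ≤ (m.choose k : ℝ) := by
  have hm0 : (0 : ℝ) < m := by exact_mod_cast hm
  have hf0 : (0 : ℝ) < (k.factorial : ℝ) := by exact_mod_cast Nat.factorial_pos k
  by_cases hk : k ≤ m
  · have h1 : (m + 1 - k) ^ k ≤ m.descFactorial k := Nat.pow_sub_le_descFactorial m k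
    have h2 : m.descFactorial k = k.factorial * m.choose k := Nat.descFactorial_eq_factorial_mul_choose m k
    rw [h2] at h1
    have h3 : ((m + 1 - k : ℕ) : ℝ) ^ k ≤ (k.factorial : ℝ) * (m.choose k : ℝ) := by
      exact_mod_cast h1
    have h4 : ((m + 1 - k : ℕ) : ℝ) = m + 1 - k := by
      rw [Nat.cast_sub (by omega)]
      push_cast
      rfl
    rw [h4] at h3
    have hkr : (k : ℝ) ≤ m := by exact_mod_cast hk
    have h5 : (m : ℝ) ^ k * (1 - (k : ℝ) ^ 2 / m) ≤ (m + 1 - k : ℝ) ^ k := by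
      have h6 : 1 + (k : ℝ) * (-(k / m)) ≤ (1 + -(k / m : ℝ)) ^ k := by
        apply one_add_mul_le_pow
        have : (k : ℝ) / m ≤ 1 := by
          rw [div_le_one hm0]
          exact hkr
        linarith
      have h7 : (m : ℝ) ^ k * (1 - (k : ℝ) ^ 2 / m) ≤ (m : ℝ) ^ k * (1 + -(k / m : ℝ)) ^ k := by
        apply mul_le_mul_of_nonneg_left _ (by positivity)
        refine le_trans (le_of_eq ?_) h6
        ring
      refine h7.trans ?_
      rw [← mul_pow]
      apply pow_le_pow_left₀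
      · have h8 : (m : ℝ) * (1 + -(k / m : ℝ)) = m - k := by
          field_simp
          ring
        rw [h8]
        linarith
      · have h8 : (m : ℝ) * (1 + -(k / m : ℝ)) = m - k := by
          field_simp
          ring
        rw [h8]
        linarith
    rw [div_mul_eq_mul_div, div_le_iff₀ hf0]
    linarith
  · push Not at hk
    have h1 : (1 : ℝ) - (k : ℝ) ^ 2 / m ≤ 0 := by
      have h2 : (1 : ℝ) ≤ (k : ℝ) ^ 2 / m := by
        rw [le_div_iff₀ hm0, one_mul]
        have h3 : (m : ℝ) ≤ k := by exact_mod_cast hk.le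
        have h4 : (1 : ℝ) ≤ k := by exact_mod_cast (by omega : 1 ≤ k)
        nlinarith
      linarith
    have h3 : (m : ℝ) ^ k / (k.factorial : ℝ) * (1 - (k : ℝ) ^ 2 / m) ≤ 0 :=
      mul_nonpos_of_nonneg_of_nonpos (by positivity) h1
    exact h3.trans (Nat.cast_nonneg _)

end Pool.Agent.W167.RN
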