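import Mathlib

set_option autoImplicit false

/-! Extremal vertex sets and elementary symmetric functions. -/

namespace Pool.Agent.W167.RN

open Finset

variable {V : Type*} [DecidableEq V]

/-- weighted degree -/
def dg (A : V → V → ℝ) (U : Finset V) (v : V) : ℝ := ∑ u ∈ U, A v u

/-- total weight -/
def tot (A : V → V → ℝ) (U : Finset V) : ℝ := ∑ v ∈ U, dg A U v

lemma tot_erase (A : V → V → ℝ) (hs : ∀ u v, A u v = A v u) (h0 : ∀ v, A v v = 0)
    (U : Finset V) {v : V} (hv : v ∈ U) : tot A (U.erase v) = tot A U - 2 * dg A U v := by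
  have h1 : ∀ u, dg A (U.erase v) u = dg A U u - A u v := by
    intro u
    unfold dg
    have := Finset.add_sum_erase U (fun w => A u w) hv
    linarith
  have h2 : tot A U = dg A U v + ∑ u ∈ U.erase v, dg A U u := by
    unfold tot
    exact (Finset.add_sum_erase U (fun u => dg A U u) hv).symm
  have h3 : ∑ u ∈ U.erase v, A u v = dg A U v := by
    unfold dg
    have h4 := Finset.add_sum_erase U (fun w => A v w) hv
    rw [h0] at h4
    rw [← h4, zero_add]
    exact Finset.sum_congr rfl fun u _ => hs u v
  have h5 : tot A (U.erase v) = ∑ u ∈ U.erase v, (dg A U u - A u v) := by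
    unfold tot
    exact Finset.sum_congr rfl fun u _ => h1 u
  rw [h5, Finset.sum_sub_distrib, h3, h2]
  ring

/-- **A large vertex set without vertices of large degree.** -/
lemma extremal (A : V → V → ℝ) (hs : ∀ u v, A u v = A v u) (h0 : ∀ v, A v v = 0)
    (hA : ∀ u v, 0 ≤ A u v) (W : Finset V) (hW : W.Nonempty) (α σ : ℝ) (hσ : 0 < σ)
    (hα : tot A W ≤ α * (W.card : ℝ) ^ 2) :
    ∃ U ⊆ W, U.Nonempty ∧ (W.card : ℝ) * Real.exp (-(α / σ)) ≤ U.card ∧
      ∀ v ∈ U, dg A U v ≤ (α + σ / 2) * U.card := by
  classical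
  set Ψ : Finset V → ℝ := fun U => tot A U / (U.card : ℝ) ^ 2 +
    σ * (Real.log W.card - Real.log U.card) with hΨ
  obtain ⟨U, hU, hmin⟩ := Finset.exists_min_image (W.powerset.filter (fun U => U.Nonempty)) Ψ
    ⟨W, Finset.mem_filter.2 ⟨Finset.mem_powerset.2 (Finset.Subset.refl W), hW⟩⟩
  rw [Finset.mem_filter, Finset.mem_powerset] at hU
  have hn : (0 : ℝ) < W.card := by exact_mod_cast hW.card_pos
  have hm : (0 : ℝ) < U.card := by exact_mod_cast hU.2.card_pos
  have hΨW : Ψ U ≤ α := by
    refine (hmin W (Finset.mem_filter.2 ⟨Finset.mem_powerset.2 (Finset.Subset.refl W), hW⟩)).trans ?_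
    simp only [hΨ, sub_self, mul_zero, add_zero]
    rw [div_le_iff₀ (by positivity)]
    exact hα
  have hT0 : 0 ≤ tot A U := Finset.sum_nonneg fun v _ => Finset.sum_nonneg fun u _ => hA v u
  have hdiv0 : 0 ≤ tot A U / (U.card : ℝ) ^ 2 := by positivity
  have hlog : 0 ≤ Real.log W.card - Real.log U.card := by
    have : Real.log U.card ≤ Real.log W.card := by
      apply Real.log_le_log hm
      exact_mod_cast Finset.card_le_card hU.1
    linarith
  have hTα : tot A U / (U.card : ℝ) ^ 2 ≤ α := by
    have : 0 ≤ σ * (Real.log W.card - Real.log U.card) := mul_nonneg hσ.le hlog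
    simp only [hΨ] at hΨW
    linarith
  refine ⟨U, hU.1, hU.2, ?_, ?_⟩
  · have h1 : Real.log W.card - Real.log U.card ≤ α / σ := by
      rw [le_div_iff₀ hσ]
      simp only [hΨ] at hΨW
      linarith
    have h2 : Real.log ((W.card : ℝ) * Real.exp (-(α / σ))) ≤ Real.log U.card := by
      rw [Real.log_mul hn.ne' (Real.exp_pos _).ne', Real.log_exp]
      linarith
    exact (Real.log_le_log_iff (by positivity) hm).1 h2
  · intro v hv
    have hTm : tot A U ≤ α * (U.card : ℝ) ^ 2 := by
      rwa [div_le_iff₀ (by positivity)] at hTα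
    by_cases hcard : U.card = 1
    · have h1 : dg A U v = 0 := by
        obtain ⟨w, hw⟩ := Finset.card_eq_one.1 hcard
        rw [hw, Finset.mem_singleton] at hv
        unfold dg
        rw [hw, Finset.sum_singleton, hv, h0]
      have h2 : 0 ≤ α := hdiv0.trans hTα
      rw [h1]
      positivity
    · have hcard2 : 2 ≤ U.card := by
        have := hU.2.card_pos
        omega
      have hmr : (2 : ℝ) ≤ U.card := by exact_mod_cast hcard2
      have hec : ((U.erase v).card : ℝ) = U.card - 1 := by
        rw [Finset.card_erase_of_mem hv]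
        push_cast [Nat.sub_add_cancel (by omega : 1 ≤ U.card), Nat.cast_sub (by omega : 1 ≤ U.card)]
        rfl
      have hene : (U.erase v).Nonempty := by
        rw [← Finset.card_pos, Finset.card_erase_of_mem hv]
        omega
      have h1 := hmin (U.erase v) (Finset.mem_filter.2
        ⟨Finset.mem_powerset.2 ((Finset.erase_subset v U).trans hU.1), hene⟩)
      simp only [hΨ] at h1
      rw [tot_erase A hs h0 U hv, hec] at h1
      set m : ℝ := (U.card : ℝ) with hmdef
      set T := tot A U with hT
      set d := dg A U v with hd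
      have hm1 : 0 < m - 1 := by linarith
      -- logarithm
      have hlog2 : Real.log m - Real.log (m - 1) ≤ 1 / (m - 1) := by
        rw [← Real.log_div hm.ne' hm1.ne']
        have h2 := Real.log_le_sub_one_of_pos (div_pos hm hm1)
        refine h2.trans (le_of_eq ?_)
        field_simp
        ring
      have h3 : T / m ^ 2 ≤ (T - 2 * d) / (m - 1) ^ 2 + σ * (1 / (m - 1)) := by
        have h4 : σ * (Real.log m - Real.log (m - 1)) ≤ σ * (1 / (m - 1)) :=
          mul_le_mul_of_nonneg_left hlog2 hσ.le
        linarith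
      have h5 : T * (m - 1) ^ 2 ≤ (T - 2 * d + σ * (m - 1)) * m ^ 2 := by
        have h6 : (T - 2 * d) / (m - 1) ^ 2 + σ * (1 / (m - 1)) =
            (T - 2 * d + σ * (m - 1)) / (m - 1) ^ 2 := by
          field_simp
        rw [h6, div_le_div_iff₀ (by positivity) (by positivity)] at h3
        exact h3
      -- hence the bound for d
      have h7 : 2 * d * m ^ 2 ≤ T * (2 * m - 1) + σ * (m - 1) * m ^ 2 := by nlinarith
      have h8 : T * (2 * m - 1) ≤ α * m ^ 2 * (2 * m) := by
        have h9 : T * (2 * m - 1) ≤ T * (2 * m) := by nlinarith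
        have h10 : T * (2 * m) ≤ α * m ^ 2 * (2 * m) := by
          apply mul_le_mul_of_nonneg_right hTm (by linarith)
        linarith
      have h11 : 2 * d * m ^ 2 ≤ (2 * (α * m) + σ * m) * m ^ 2 := by
        have : σ * (m - 1) * m ^ 2 ≤ σ * m * m ^ 2 := by
          apply mul_le_mul_of_nonneg_right _ (by positivity)
          nlinarith
        nlinarith
      have h12 := le_of_mul_le_mul_right h11 (by positivity)
      linarith

lemma pow_add_ge (s x : ℝ) (hs : 0 ≤ s) (hx : 0 ≤ x) (j : ℕ) :
    s ^ (j + 1) + (j + 1) * x * s ^ j ≤ (s + x) ^ (j + 1) := by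
  induction j with
  | zero => simp
  | succ j ih =>
    have h1 : (s + x) ^ (j + 1 + 1) = (s + x) ^ (j + 1) * (s + x) := pow_succ _ _
    rw [h1]
    have h2 := mul_le_mul_of_nonneg_right ih (add_nonneg hs hx)
    refine le_trans ?_ h2
    have h3 : 0 ≤ ((j : ℝ) + 1) * x * s ^ j * x := by positivity
    push_cast
    have h4 : s ^ (j + 1 + 1) = s ^ j * s * s := by ring
    have h5 : s ^ (j + 1) = s ^ j * s := by ring
    rw [h4, h5]
    nlinarith

/-- elementary symmetric functions -/
lemma esymm_le (x : V → ℝ) (hx : ∀ v, 0 ≤ x v) (U : Finset V) : ∀ j : ℕ,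
    ∑ S ∈ U.powersetCard j, ∏ u ∈ S, x u ≤ (∑ u ∈ U, x u) ^ j / (j.factorial : ℝ) := by
  classical
  induction U using Finset.induction_on with
  | empty =>
    intro j
    rcases Nat.eq_zero_or_pos j with rfl | hj
    · simp
    · rw [Finset.powersetCard_eq_empty.2 (by simpa using hj)]
      simp [hj.ne']
  | insert a U ha ih =>
    intro j
    cases j with
    | zero => simp
    | succ j =>
      rw [Finset.powersetCard_succ_insert ha, Finset.sum_union, Finset.sum_image]
      · have h1 : ∀ S ∈ U.powersetCard j, ∏ u ∈ insert a S, x u = x a * ∏ u ∈ S, x u := by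
          intro S hS
          rw [Finset.prod_insert]
          intro h
          exact ha ((Finset.mem_powersetCard.1 hS).1 h)
        rw [Finset.sum_congr rfl h1, ← Finset.mul_sum, Finset.sum_insert ha]
        have h2 := ih (j + 1)
        have h3 := mul_le_mul_of_nonneg_left (ih j) (hx a)
        have hs : 0 ≤ ∑ u ∈ U, x u := Finset.sum_nonneg fun u _ => hx u
        have h4 := pow_add_ge (∑ u ∈ U, x u) (x a) hs (hx a) j
        set s := ∑ u ∈ U, x u with hsdef
        have hf : (0 : ℝ) < (j.factorial : ℝ) := by exact_mod_cast Nat.factorial_pos j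
        have hf1 : ((j + 1).factorial : ℝ) = (j + 1) * (j.factorial : ℝ) := by
          rw [Nat.factorial_succ]
          push_cast
          ring
        have h5 : s ^ (j + 1) / ((j + 1).factorial : ℝ) + x a * (s ^ j / (j.factorial : ℝ)) ≤
            (x a + s) ^ (j + 1) / ((j + 1).factorial : ℝ) := by
          rw [hf1, add_comm (x a) s]
          have h6 : x a * (s ^ j / (j.factorial : ℝ)) =
              ((j : ℝ) + 1) * x a * s ^ j / ((j + 1) * (j.factorial : ℝ)) := by
            field_simp
          rw [h6, ← add_div]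
          apply div_le_div_of_nonneg_right h4 (by positivity)
        linarith
      · intro S hS T hT hST
        rw [Finset.mem_coe, Finset.mem_powersetCard] at hS hT
        have h1 : a ∉ S := fun h => ha (hS.1 h)
        have h2 : a ∉ T := fun h => ha (hT.1 h)
        rw [← Finset.erase_insert h1, ← Finset.erase_insert h2, hST]
      · rw [Finset.disjoint_left]
        intro S hS hS'
        rw [Finset.mem_powersetCard] at hS
        rw [Finset.mem_image] at hS'
        obtain ⟨T, _, rfl⟩ := hS'
        exact ha (hS.1 (Finset.mem_insert_self a T))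

/-- sums over the sets containing a given element -/
lemma sum_containing (x : V → ℝ) (hx : ∀ v, 0 ≤ x v) (U : Finset V) (v : V) (j : ℕ) :
    ∑ S ∈ (U.powersetCard (j + 1)).filter (fun S => v ∈ S), ∏ u ∈ S, x u ≤
      x v * ((∑ u ∈ U, x u) ^ j / (j.factorial : ℝ)) := by
  classical
  have h1 : ∑ S ∈ (U.powersetCard (j + 1)).filter (fun S => v ∈ S), ∏ u ∈ S, x u =
      ∑ S ∈ ((U.powersetCard (j + 1)).filter (fun S => v ∈ S)).image (fun S => S.erase v),
        x v * ∏ u ∈ S, x u := by
    rw [Finset.sum_image]
    · apply Finset.sum_congr rfl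
      intro S hS
      rw [Finset.mem_filter] at hS
      exact (Finset.mul_prod_erase S x hS.2).symm
    · intro S hS T hT hST
      rw [Finset.mem_coe, Finset.mem_filter] at hS hT
      rw [← Finset.insert_erase hS.2, ← Finset.insert_erase hT.2]
      simp only at hST
      rw [hST]
  rw [h1, ← Finset.mul_sum]
  apply mul_le_mul_of_nonneg_left _ (hx v)
  refine le_trans ?_ (esymm_le x hx U j)
  apply Finset.sum_le_sum_of_subset_of_nonneg
  · intro S hS
    rw [Finset.mem_image] at hS
    obtain ⟨T, hT, rfl⟩ := hS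
    rw [Finset.mem_filter, Finset.mem_powersetCard] at hT
    rw [Finset.mem_powersetCard]
    refine ⟨(Finset.erase_subset v T).trans hT.1.1, ?_⟩
    rw [Finset.card_erase_of_mem hT.2, hT.1.2]
    rfl
  · intro S _ _
    exact Finset.prod_nonneg fun u _ => hx u

end Pool.Agent.W167.RN
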