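import Pool.Agent.W167.RN.Main

set_option autoImplicit false

/-! Both colours. -/

namespace Pool.Agent.W167.RN

open Finset MeasureTheory ProbabilityTheory Filter

variable {Ω : Type*} [MeasurableSpace Ω] {μ : Measure Ω}

lemma indep_compl {ι : Type*} {s t : ι → Set Ω} (h : iIndepSet s μ)
    (ht : ∀ i, t i = s i ∨ t i = (s i)ᶜ) : iIndepSet t μ := by
  rw [iIndepSet_iff] at h ⊢
  intro s' f hf
  apply h s'
  intro i hi
  have h1 : MeasurableSpace.generateFrom {t i} ≤ MeasurableSpace.generateFrom {s i} := by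
    apply MeasurableSpace.generateFrom_le
    intro u hu
    rw [Set.mem_singleton_iff] at hu
    have h2 : MeasurableSet[MeasurableSpace.generateFrom {s i}] (s i) :=
      MeasurableSpace.measurableSet_generateFrom rfl
    rcases ht i with h3 | h3
    · rw [hu, h3]
      exact h2
    · rw [hu, h3]
      exact h2.compl
  exact h1 _ (hf i hi)

lemma prodForm_of_indep {n : ℕ} {G : Ω → SimpleGraph (Fin n)}
    (hG : ∀ u v, MeasurableSet {ω | (G ω).Adj u v})
    (h : iIndepSet (fun e : {e : Fin n × Fin n // e.1 < e.2} => {ω | (G ω).Adj e.1.1 e.1.2}) μ) :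
    ProdForm μ G := by
  classical
  rw [iIndepSet_iff_meas_biInter (fun e => hG _ _)] at h
  intro F hF
  have h1 := h (F.subtype (fun e => e.1 < e.2))
  have h2 : (⋂ e ∈ F.subtype (fun e : Fin n × Fin n => e.1 < e.2),
      {ω | (G ω).Adj e.1.1 e.1.2}) = {ω | ∀ e ∈ F, (G ω).Adj e.1 e.2} := by
    ext ω
    simp only [Set.mem_iInter, Finset.mem_subtype, Set.mem_ofPred_eq]
    constructor
    · intro h3 e he
      exact h3 ⟨e, hF e he⟩ he
    · intro h3 e he
      exact h3 e.1 he
  rw [h2] at h1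
  unfold Measure.real
  rw [h1, ENNReal.toReal_prod]
  have h3 := Finset.prod_subtype_of_mem (s := F)
    (fun e => (μ {ω | (G ω).Adj e.1 e.2}).toReal) (p := fun e => e.1 < e.2) hF
  exact h3

/-- **Monochromatic cliques in independent random colourings.** -/
theorem noisy {p c ε : ℝ} (hp0 : 0 < p) (hp1 : p ≤ 1 / 2) (hc0 : 0 < c)
    (hc : 1 < c ^ 4 * (p * (1 - p))) (hε : 0 < ε) :
    ∃ K : ℕ, ∀ k : ℕ, K ≤ k → ∀ n : ℕ, c ^ k ≤ (n : ℝ) →
      ∀ {Ω : Type*} [MeasurableSpace Ω] (μ : Measure Ω) [IsProbabilityMeasure μ]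
        (G : Ω → SimpleGraph (Fin n)), (∀ u v, MeasurableSet {ω | (G ω).Adj u v}) →
        iIndepSet (fun e : {e : Fin n × Fin n // e.1 < e.2} =>
          {ω | (G ω).Adj e.1.1 e.1.2}) μ →
        (∀ u v, u ≠ v → p ≤ μ.real {ω | (G ω).Adj u v} ∧
          μ.real {ω | (G ω).Adj u v} ≤ 1 - p) →
        1 - ε ≤ μ.real {ω | (∃ s, (G ω).IsNClique k s) ∨ (∃ s, (G ω)ᶜ.IsNClique k s)} := by
  classical
  have hpp : 0 < p * (1 - p) := mul_pos hp0 (by linarith)
  have hpp1 : p * (1 - p) ≤ 1 := by nlinarith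
  set Λ : ℝ := -Real.log (p * (1 - p)) with hΛ
  have hΛ0 : 0 ≤ Λ := by
    rw [hΛ]
    have := Real.log_nonpos hpp.le hpp1
    linarith
  have hexp : Real.exp (Λ / 2 / 2) < c := by
    rw [← Real.exp_log hc0]
    apply Real.exp_lt_exp.2
    have h1 : 0 < Real.log (c ^ 4 * (p * (1 - p))) := Real.log_pos hc
    rw [Real.log_mul (by positivity) hpp.ne', Real.log_pow] at h1
    push_cast at h1
    rw [hΛ]
    linarith
  obtain ⟨K, hK⟩ := red_main (p := p) (c := c) (ε := ε) (α := Λ / 2) hp0 (by linarith)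
    (by linarith) hε hexp
  refine ⟨K, fun k hk n hn Ω _ μ _ G hG hind hq => ?_⟩
  -- the blue graph
  have hadj : ∀ u v, u ≠ v → {ω | (G ω)ᶜ.Adj u v} = {ω | (G ω).Adj u v}ᶜ := by
    intro u v huv
    ext ω
    simp [SimpleGraph.compl_adj, huv]
  have hG' : ∀ u v, MeasurableSet {ω | (G ω)ᶜ.Adj u v} := by
    intro u v
    by_cases huv : u = v
    · have : {ω | (G ω)ᶜ.Adj u v} = ∅ := by
        ext ω
        simp [huv]
      rw [this]
      exact MeasurableSet.empty
    · rw [hadj u v huv]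
      exact (hG u v).compl
  have hq' : ∀ u v, u ≠ v → μ.real {ω | (G ω)ᶜ.Adj u v} = 1 - μ.real {ω | (G ω).Adj u v} := by
    intro u v huv
    rw [hadj u v huv]
    exact probReal_compl_eq_one_sub (hG u v)
  have hind' : iIndepSet (fun e : {e : Fin n × Fin n // e.1 < e.2} =>
      {ω | (G ω)ᶜ.Adj e.1.1 e.1.2}) μ :=
    indep_compl hind fun e => Or.inr (hadj _ _ e.2.ne)
  have hsum : tot (wt μ G) Finset.univ + tot (wt μ (fun ω => (G ω)ᶜ)) Finset.univ ≤
      Λ * (n : ℝ) ^ 2 := by
    unfold tot dg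
    rw [← Finset.sum_add_distrib]
    have h1 : ∀ u v, wt μ G u v + wt μ (fun ω => (G ω)ᶜ) u v ≤ Λ := by
      intro u v
      unfold wt
      split_ifs with huv
      · linarith
      · obtain ⟨h2, h3⟩ := hq u v huv
        rw [hq' u v huv]
        set q := μ.real {ω | (G ω).Adj u v} with hqdef
        have h4 : 0 < q := by linarith
        have h5 : 0 < 1 - q := by linarith
        have h6 : Real.log (p * (1 - p)) ≤ Real.log (q * (1 - q)) := by
          apply Real.log_le_log hpp
          nlinarith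
        rw [Real.log_mul h4.ne' h5.ne'] at h6
        rw [hΛ]
        linarith
    calc ∑ u : Fin n, (∑ v : Fin n, wt μ G u v + ∑ v : Fin n, wt μ (fun ω => (G ω)ᶜ) u v)
        = ∑ u : Fin n, ∑ v : Fin n, (wt μ G u v + wt μ (fun ω => (G ω)ᶜ) u v) := by
          apply Finset.sum_congr rfl
          intro u _
          rw [Finset.sum_add_distrib]
      _ ≤ ∑ _u : Fin n, ∑ _v : Fin n, Λ :=
          Finset.sum_le_sum fun u _ => Finset.sum_le_sum fun v _ => h1 u v
      _ = Λ * (n : ℝ) ^ 2 := by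
          rw [Finset.sum_const, Finset.sum_const, Finset.card_univ, Fintype.card_fin,
            nsmul_eq_mul, nsmul_eq_mul]
          ring
  by_cases hcase : tot (wt μ G) Finset.univ ≤ Λ / 2 * (n : ℝ) ^ 2
  · refine (hK k hk n hn μ G hG (prodForm_of_indep hG hind) (fun u v huv => (hq u v huv).1)
      hcase).trans (measureReal_mono ?_ (measure_ne_top _ _))
    intro ω hω
    exact Or.inl hω
  · push Not at hcase
    refine (hK k hk n hn μ (fun ω => (G ω)ᶜ) hG' (prodForm_of_indep hG' hind') (fun u v huv => by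
      rw [hq' u v huv]
      linarith [(hq u v huv).2]) (by linarith)).trans (measureReal_mono ?_ (measure_ne_top _ _))
    intro ω hω
    exact Or.inr hω

end Pool.Agent.W167.RN
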