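import Pool.Agent.W167.RN.Prob

set_option autoImplicit false

/-! Cliques in inhomogeneous random graphs; monochromatic cliques in noisy colourings. -/

namespace Pool.Agent.W167.RN

open Finset MeasureTheory ProbabilityTheory Filter

lemma small_error (a b C : ℝ) (ha : 0 < a) (hb : 0 < b) {δ : ℝ} (hδ : 0 < δ) :
    ∃ K : ℕ, ∀ k : ℕ, K ≤ k →
      (k : ℝ) ^ 2 * C * Real.exp (-(k * a)) + k * Real.exp (-(k * b)) ≤ δ := by
  have h1 := tendsto_pow_const_mul_const_pow_of_abs_lt_one 2 (r := Real.exp (-a)) (by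
    rw [abs_of_pos (Real.exp_pos _)]
    exact (Real.exp_lt_exp.2 (by linarith)).trans_eq Real.exp_zero)
  have h2 := tendsto_pow_const_mul_const_pow_of_abs_lt_one 1 (r := Real.exp (-b)) (by
    rw [abs_of_pos (Real.exp_pos _)]
    exact (Real.exp_lt_exp.2 (by linarith)).trans_eq Real.exp_zero)
  have h3 : Tendsto (fun k : ℕ => C * ((k : ℝ) ^ 2 * Real.exp (-a) ^ k) +
      (k : ℝ) ^ 1 * Real.exp (-b) ^ k) atTop (nhds (C * 0 + 0)) := (h1.const_mul C).add h2
  rw [mul_zero, add_zero] at h3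
  have h4 := h3.eventually (gt_mem_nhds hδ)
  obtain ⟨K, hK⟩ := eventually_atTop.1 h4
  refine ⟨K, fun k hk => ?_⟩
  have h5 := hK k hk
  have e1 : Real.exp (-a) ^ k = Real.exp (-(k * a)) := by
    rw [← Real.exp_nat_mul]
    congr 1
    ring
  have e2 : Real.exp (-b) ^ k = Real.exp (-(k * b)) := by
    rw [← Real.exp_nat_mul]
    congr 1
    ring
  rw [e1, e2] at h5
  have e3 : (k : ℝ) ^ 2 * C * Real.exp (-(k * a)) + k * Real.exp (-(k * b)) =
      C * ((k : ℝ) ^ 2 * Real.exp (-(k * a))) + (k : ℝ) ^ 1 * Real.exp (-(k * b)) := by ring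
  rw [e3]
  exact h5.le

lemma ratio_aux {D y ε : ℝ} (hD0 : 0 ≤ D) (hD1 : D ≤ ε / 4) (hD2 : D ≤ 1 / 4) (hyD : y ≤ D) :
    Real.exp y ≤ (1 - D) * (1 + ε) := by
  have h1 : Real.exp y ≤ 1 / (1 - D) := by
    have h2 : Real.exp y ≤ Real.exp D := Real.exp_le_exp.2 hyD
    refine h2.trans ?_
    rw [le_div_iff₀ (by linarith)]
    have h3 := Real.add_one_le_exp (-D)
    have h4 : Real.exp D * (1 - D) ≤ Real.exp D * Real.exp (-D) :=
      mul_le_mul_of_nonneg_left (by linarith) (Real.exp_pos _).le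
    rw [← Real.exp_add, add_neg_cancel, Real.exp_zero] at h4
    exact h4
  refine h1.trans ?_
  rw [div_le_iff₀ (by linarith)]
  have h6 : 1 ≤ (1 - D) * (1 + 4 * D) * (1 - D) := by
    nlinarith [mul_nonneg hD0 (by linarith : 0 ≤ 1 / 4 - D),
      mul_nonneg (mul_nonneg hD0 hD0) hD0]
  have h7 : (1 - D) * (1 + 4 * D) * (1 - D) ≤ (1 - D) * (1 + ε) * (1 - D) := by
    apply mul_le_mul_of_nonneg_right _ (by linarith)
    apply mul_le_mul_of_nonneg_left _ (by linarith)
    linarith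
  linarith

/-- **Cliques in inhomogeneous random graphs.** -/
lemma red_main {p c ε α : ℝ} (hp0 : 0 < p) (hp1 : p < 1) (hα0 : 0 ≤ α) (hε : 0 < ε)
    (hc : Real.exp (α / 2) < c) :
    ∃ K : ℕ, ∀ k : ℕ, K ≤ k → ∀ n : ℕ, c ^ k ≤ (n : ℝ) →
      ∀ {Ω : Type*} [MeasurableSpace Ω] (μ : Measure Ω) [IsProbabilityMeasure μ]
        (G : Ω → SimpleGraph (Fin n)), (∀ u v, MeasurableSet {ω | (G ω).Adj u v}) →
        ProdForm μ G → (∀ u v, u ≠ v → p ≤ μ.real {ω | (G ω).Adj u v}) →
        tot (wt μ G) Finset.univ ≤ α * (n : ℝ) ^ 2 →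
        1 - ε ≤ μ.real {ω | ∃ s, (G ω).IsNClique k s} := by
  classical
  have hc0 : 0 < c := (Real.exp_pos _).trans hc
  set L : ℝ := -Real.log p with hL
  have hL0 : 0 < L := by
    rw [hL]
    have := Real.log_neg hp0 hp1
    linarith
  have hlogc : α / 2 < Real.log c := by
    rw [← Real.log_exp (α / 2)]
    exact Real.log_lt_log (Real.exp_pos _) hc
  set σ : ℝ := min (Real.log c - α / 2) L with hσ
  have hσ0 : 0 < σ := lt_min (by linarith) hL0
  have hσ1 : σ ≤ Real.log c - α / 2 := min_le_left _ _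
  have hσ2 : σ ≤ L := min_le_right _ _
  set θ : ℝ := α + σ with hθ
  set C : ℝ := Real.exp (α / σ) with hC
  have hC0 : 0 < C := Real.exp_pos _
  set b : ℝ := σ ^ 2 / (16 * L ^ 2) with hb
  have hb0 : 0 < b := by positivity
  obtain ⟨K, hK⟩ := small_error (σ / 2) b C (by linarith) hb0 (δ := min (ε / 4) (1 / 4))
    (lt_min (by linarith) (by norm_num))
  refine ⟨K + 1, fun k hk n hn Ω _ μ _ G hG hprod hq htot => ?_⟩
  have hk1 : 1 ≤ k := by omega
  have hkr : (1 : ℝ) ≤ k := by exact_mod_cast hk1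
  set D : ℝ := (k : ℝ) ^ 2 * C * Real.exp (-(k * (σ / 2))) + k * Real.exp (-(k * b)) with hD
  have hD1 : D ≤ ε / 4 := (hK k (by omega)).trans (min_le_left _ _)
  have hD2 : D ≤ 1 / 4 := (hK k (by omega)).trans (min_le_right _ _)
  have hD0 : 0 ≤ D := by positivity
  have hn0 : (0 : ℝ) < n := lt_of_lt_of_le (by positivity) hn
  have hn1 : 0 < n := by exact_mod_cast hn0
  have : NeZero n := ⟨hn1.ne'⟩
  -- weights
  set A := wt μ G with hA
  have hAs : ∀ u v, A u v = A v u := fun u v => wt_symm G u v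
  have hA0 : ∀ v, A v v = 0 := fun v => wt_self G v
  have hApos : ∀ u v, 0 ≤ A u v := by
    intro u v
    rw [hA]
    unfold wt
    split_ifs with h
    · exact le_refl _
    · have := Real.log_nonpos (measureReal_nonneg (μ := μ) (s := {ω | (G ω).Adj u v}))
        measureReal_le_one
      linarith
  have hAL : ∀ u v, A u v ≤ L := by
    intro u v
    rw [hA]
    unfold wt
    split_ifs with h
    · exact hL0.le
    · have := Real.log_le_log hp0 (hq u v h)
      rw [hL]
      linarith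
  obtain ⟨U, _, hUne, hUcard, hUdeg⟩ := extremal A hAs hA0 hApos Finset.univ
    ⟨0, Finset.mem_univ _⟩ α σ hσ0 (by simpa using htot)
  set m : ℝ := (U.card : ℝ) with hm
  have hm1 : 1 ≤ U.card := hUne.card_pos
  have hm0 : 0 < m := by rw [hm]; exact_mod_cast hm1
  have hmn : (n : ℝ) ≤ m * C := by
    rw [Finset.card_univ, Fintype.card_fin, Real.exp_neg] at hUcard
    have h1 := mul_le_mul_of_nonneg_right hUcard hC0.le
    rw [mul_assoc, inv_mul_cancel₀ (Real.exp_pos _).ne', mul_one] at h1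
    exact h1
  -- the exponential size
  set y0 : ℝ := Real.exp (k * θ / 2) with hy0
  have hy0pos : 0 < y0 := Real.exp_pos _
  have hy01 : 1 ≤ y0 := by
    rw [hy0]
    apply Real.one_le_exp
    have : 0 ≤ θ := by rw [hθ]; linarith
    positivity
  have hnexp : y0 * Real.exp (k * (σ / 2)) ≤ n := by
    refine le_trans ?_ hn
    have h1 : c ^ k = Real.exp (k * Real.log c) := by
      rw [Real.exp_nat_mul, Real.exp_log hc0]
    rw [h1, hy0, ← Real.exp_add]
    apply Real.exp_le_exp.2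
    rw [hθ]
    nlinarith
  set y : ℝ := (k : ℝ) ^ 2 * y0 / m with hy
  have hyle : y ≤ (k : ℝ) ^ 2 * C * Real.exp (-(k * (σ / 2))) := by
    rw [hy, div_le_iff₀ hm0]
    have h1 : y0 ≤ m * C * Real.exp (-(k * (σ / 2))) := by
      have h2 : y0 * Real.exp (k * (σ / 2)) ≤ m * C := hnexp.trans hmn
      have h3 := mul_le_mul_of_nonneg_right h2 (Real.exp_pos (-(k * (σ / 2)))).le
      rw [mul_assoc, ← Real.exp_add, add_neg_cancel, Real.exp_zero, mul_one] at h3
      exact h3
    have h4 := mul_le_mul_of_nonneg_left h1 (by positivity : (0 : ℝ) ≤ (k : ℝ) ^ 2)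
    linarith
  have hk2m : (k : ℝ) ^ 2 / m ≤ y := by
    rw [hy]
    apply div_le_div_of_nonneg_right _ hm0.le
    nlinarith [sq_nonneg (k : ℝ)]
  have hy_nn : 0 ≤ y := by positivity
  -- the family
  set M0 : ℝ := m ^ k / (k.factorial : ℝ) with hM0
  have hM0pos : 0 < M0 := by positivity
  set fam := (U.powersetCard k) \ (bad A U k θ) with hfam
  have hbad := card_bad A hA0 hApos hAL U (α' := α + σ / 2) (by linarith) hUdeg
    (t := σ / (4 * L ^ 2)) (by positivity) (by
      have h1 : σ / (4 * L ^ 2) * L = σ / (4 * L) := by field_simp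
      rw [h1, div_le_one (by positivity)]
      linarith) θ k hk1
  have hexpo : σ / (4 * L ^ 2) * (α + σ / 2) + (σ / (4 * L ^ 2)) ^ 2 * L ^ 2 -
      σ / (4 * L ^ 2) * θ = -b := by
    rw [hθ, hb]
    field_simp
    ring
  rw [hexpo] at hbad
  have hbad' : ((bad A U k θ).card : ℝ) ≤ M0 * (k * Real.exp (-(k * b))) := by
    refine hbad.trans (le_of_eq ?_)
    rw [hM0]
    congr 3
    ring
  have hN : M0 * (1 - D) ≤ (fam.card : ℝ) := by
    have h1 : ((U.powersetCard k).card : ℝ) ≤ (fam.card : ℝ) + ((bad A U k θ).card : ℝ) := by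
      have h2 := Finset.card_le_card_sdiff_add_card (s := U.powersetCard k) (t := bad A U k θ)
      exact_mod_cast h2
    rw [Finset.card_powersetCard] at h1
    have h2 := choose_ge U.card k hm1
    have h3 : (k : ℝ) ^ 2 / m ≤ (k : ℝ) ^ 2 * C * Real.exp (-(k * (σ / 2))) := hk2m.trans hyle
    have h4 : M0 * ((k : ℝ) ^ 2 / m) ≤ M0 * ((k : ℝ) ^ 2 * C * Real.exp (-(k * (σ / 2)))) :=
      mul_le_mul_of_nonneg_left h3 hM0pos.le
    have h5 : M0 * (1 - (k : ℝ) ^ 2 / m) ≤ (U.card.choose k : ℝ) := h2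
    have h6 : M0 * (1 - D) = M0 * (1 - (k : ℝ) ^ 2 / m) + (M0 * ((k : ℝ) ^ 2 / m) -
        M0 * ((k : ℝ) ^ 2 * C * Real.exp (-(k * (σ / 2))))) -
        M0 * (k * Real.exp (-(k * b))) := by
      rw [hD]
      ring
    rw [h6]
    linarith
  have hNpos : 0 < (fam.card : ℝ) := lt_of_lt_of_le (by
    have : 0 < 1 - D := by linarith
    positivity) hN
  -- second moment
  have hqpos : ∀ u v, u ≠ v → 0 < μ.real {ω | (G ω).Adj u v} := fun u v h =>
    lt_of_lt_of_le hp0 (hq u v h)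
  have hprodpos : ∀ S : Finset (Fin n), 0 < ∏ e ∈ pr S, μ.real {ω | (G ω).Adj e.1 e.2} :=
    fun S => Finset.prod_pos fun e he => hqpos _ _ (mem_pr.1 he).2.ne
  have hpaley := paley (μ := μ) fam (fun S => cl G S) (fun S _ => measurable_cl hG S)
    (fun S => (∏ e ∈ pr S, μ.real {ω | (G ω).Adj e.1 e.2})⁻¹) (by
      intro S _
      have h1 : μ.real (cl G S) = ∏ e ∈ pr S, μ.real {ω | (G ω).Adj e.1 e.2} :=
        hprod (pr S) fun e he => (mem_pr.1 he).2
      rw [h1]
      exact inv_mul_cancel₀ (hprodpos S).ne')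
  have hpair : ∀ S ∈ fam, ∑ T ∈ fam, (∏ e ∈ pr S, μ.real {ω | (G ω).Adj e.1 e.2})⁻¹ *
      (∏ e ∈ pr T, μ.real {ω | (G ω).Adj e.1 e.2})⁻¹ * μ.real (cl G S ∩ cl G T) ≤
      M0 * Real.exp y := by
    intro S hS
    rw [hfam, Finset.mem_sdiff, Finset.mem_powersetCard] at hS
    obtain ⟨⟨hSU, hSk⟩, hSbad⟩ := hS
    have hdegS : ∀ v ∈ S, dg A S v ≤ θ * k := by
      intro v hv
      by_contra hcon
      push Not at hcon
      apply hSbad
      rw [mem_bad, Finset.mem_powersetCard]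
      exact ⟨⟨hSU, hSk⟩, v, hv, hcon⟩
    set x : Fin n → ℝ := fun u => if u ∈ S then y0 else 1 with hx
    have hx0 : ∀ u, 0 ≤ x u := by
      intro u
      simp only [hx]
      split_ifs
      · exact hy0pos.le
      · exact zero_le_one
    have h1 : ∀ T, (∏ e ∈ pr S, μ.real {ω | (G ω).Adj e.1 e.2})⁻¹ *
        (∏ e ∈ pr T, μ.real {ω | (G ω).Adj e.1 e.2})⁻¹ * μ.real (cl G S ∩ cl G T) ≤
        ∏ u ∈ T, x u := by
      intro T
      rw [cl_inter hprod hqpos]
      have h2 := sum_pr A hAs hA0 (S ∩ T)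
      have h3 : ∑ v ∈ S ∩ T, dg A (S ∩ T) v ≤ ∑ _v ∈ S ∩ T, θ * k := by
        apply Finset.sum_le_sum
        intro v hv
        refine le_trans ?_ (hdegS v (Finset.mem_inter.1 hv).1)
        unfold dg
        apply Finset.sum_le_sum_of_subset_of_nonneg Finset.inter_subset_left
        intro u _ _
        exact hApos v u
      rw [Finset.sum_const, nsmul_eq_mul] at h3
      have h4 : ∏ u ∈ T, x u = y0 ^ (S ∩ T).card := by
        simp only [hx]
        rw [Finset.prod_ite, Finset.prod_const_one, mul_one, Finset.prod_const]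
        congr 2
        ext u
        simp [and_comm]
      rw [h4, hy0, ← Real.exp_nat_mul]
      apply Real.exp_le_exp.2
      have h5 : ∑ e ∈ pr (S ∩ T), wt μ G e.1 e.2 = ∑ e ∈ pr (S ∩ T), A e.1 e.2 := rfl
      rw [h5]
      linarith
    refine (Finset.sum_le_sum fun T _ => h1 T).trans ?_
    refine (Finset.sum_le_sum_of_subset_of_nonneg (Finset.sdiff_subset : fam ⊆ U.powersetCard k)
      (fun T _ _ => Finset.prod_nonneg fun u _ => hx0 u)).trans ?_
    refine (esymm_le x hx0 U k).trans ?_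
    have h2 : ∑ u ∈ U, x u ≤ m * Real.exp (k * y0 / m) := by
      have h3 : ∑ u ∈ U, x u ≤ m + k * y0 := by
        calc ∑ u ∈ U, x u ≤ ∑ u ∈ U, (1 + if u ∈ S then y0 else 0) := by
              apply Finset.sum_le_sum
              intro u _
              simp only [hx]
              split_ifs
              · linarith
              · linarith
          _ = m + k * y0 := by
              rw [Finset.sum_add_distrib, Finset.sum_const, nsmul_eq_mul, mul_one,
                Finset.sum_ite_mem, Finset.inter_eq_right.2 hSU, Finset.sum_const, nsmul_eq_mul,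
                hSk]
      refine h3.trans ?_
      have h4 := Real.add_one_le_exp (k * y0 / m)
      have h5 := mul_le_mul_of_nonneg_left h4 hm0.le
      have h6 : m * (k * y0 / m + 1) = m + k * y0 := by
        field_simp
        ring
      linarith
    calc (∑ u ∈ U, x u) ^ k / (k.factorial : ℝ)
        ≤ (m * Real.exp (k * y0 / m)) ^ k / (k.factorial : ℝ) := by
          apply div_le_div_of_nonneg_right _ (by positivity)
          exact pow_le_pow_left₀ (Finset.sum_nonneg fun u _ => hx0 u) h2 k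
      _ = M0 * Real.exp y := by
          rw [mul_pow, ← Real.exp_nat_mul, hM0, hy]
          have : (k : ℝ) * (k * y0 / m) = (k : ℝ) ^ 2 * y0 / m := by ring
          rw [this]
          ring
  have hsum : ∑ S ∈ fam, ∑ T ∈ fam, (∏ e ∈ pr S, μ.real {ω | (G ω).Adj e.1 e.2})⁻¹ *
      (∏ e ∈ pr T, μ.real {ω | (G ω).Adj e.1 e.2})⁻¹ * μ.real (cl G S ∩ cl G T) ≤
      (fam.card : ℝ) * (M0 * Real.exp y) := by
    refine (Finset.sum_le_sum hpair).trans (le_of_eq ?_)
    rw [Finset.sum_const, nsmul_eq_mul]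
  -- conclusion
  have hP : 2 * (fam.card : ℝ) - M0 * Real.exp y ≤
      (fam.card : ℝ) * μ.real (⋃ S ∈ fam, cl G S) := by
    have h1 : 2 * (fam.card : ℝ) ^ 2 - (fam.card : ℝ) * (M0 * Real.exp y) ≤
        (fam.card : ℝ) ^ 2 * μ.real (⋃ S ∈ fam, cl G S) := by
      refine le_trans ?_ hpaley
      exact sub_le_sub_left hsum _
    have h2 : (fam.card : ℝ) * (2 * (fam.card : ℝ) - M0 * Real.exp y) ≤
        (fam.card : ℝ) * ((fam.card : ℝ) * μ.real (⋃ S ∈ fam, cl G S)) := by
      have e1 : (fam.card : ℝ) * (2 * (fam.card : ℝ) - M0 * Real.exp y) =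
          2 * (fam.card : ℝ) ^ 2 - (fam.card : ℝ) * (M0 * Real.exp y) := by ring
      have e2 : (fam.card : ℝ) * ((fam.card : ℝ) * μ.real (⋃ S ∈ fam, cl G S)) =
          (fam.card : ℝ) ^ 2 * μ.real (⋃ S ∈ fam, cl G S) := by ring
      rw [e1, e2]
      exact h1
    exact le_of_mul_le_mul_left h2 hNpos
  have hyD : y ≤ D := by
    refine hyle.trans ?_
    rw [hD]
    have : 0 ≤ (k : ℝ) * Real.exp (-(k * b)) := by positivity
    linarith
  have hratio : M0 * Real.exp y ≤ (fam.card : ℝ) * (1 + ε) := by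
    have h5 := ratio_aux hD0 hD1 hD2 hyD
    calc M0 * Real.exp y ≤ M0 * ((1 - D) * (1 + ε)) := mul_le_mul_of_nonneg_left h5 hM0pos.le
      _ = M0 * (1 - D) * (1 + ε) := by ring
      _ ≤ (fam.card : ℝ) * (1 + ε) := mul_le_mul_of_nonneg_right hN (by linarith)
  have hfin : 1 - ε ≤ μ.real (⋃ S ∈ fam, cl G S) := by
    have h1 : (fam.card : ℝ) * (1 - ε) ≤ (fam.card : ℝ) * μ.real (⋃ S ∈ fam, cl G S) := by
      linarith
    exact le_of_mul_le_mul_left h1 hNpos
  refine hfin.trans (measureReal_mono ?_ (measure_ne_top _ _))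
  intro ω hω
  rw [Set.mem_iUnion₂] at hω
  obtain ⟨S, hS, hS2⟩ := hω
  rw [hfam, Finset.mem_sdiff, Finset.mem_powersetCard] at hS
  exact ⟨S, ⟨mem_cl.1 hS2, hS.1.2⟩⟩

end Pool.Agent.W167.RN
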