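import Pool.Agent.W167.RN.Count

set_option autoImplicit false

/-! The second moment method and random graphs with independent edges. -/

namespace Pool.Agent.W167.RN

open Finset MeasureTheory ProbabilityTheory

section
variable {Ω : Type*} [MeasurableSpace Ω] {μ : Measure Ω} [IsProbabilityMeasure μ]

/-- second moment method with weights -/
lemma paley {ι : Type*} (s : Finset ι) (R : ι → Set Ω) (hR : ∀ i ∈ s, MeasurableSet (R i))
    (c : ι → ℝ) (hc : ∀ i ∈ s, c i * μ.real (R i) = 1) :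
    2 * (s.card : ℝ) ^ 2 - ∑ i ∈ s, ∑ j ∈ s, c i * c j * μ.real (R i ∩ R j) ≤
      (s.card : ℝ) ^ 2 * μ.real (⋃ i ∈ s, R i) := by
  classical
  set N : ℝ := (s.card : ℝ) with hN
  set f : Ω → ℝ := fun ω => ∑ i ∈ s, c i * Set.indicator (R i) (fun _ => (1 : ℝ)) ω with hf
  set g : Ω → ℝ := fun ω => ∑ i ∈ s, ∑ j ∈ s,
    c i * c j * Set.indicator (R i ∩ R j) (fun _ => (1 : ℝ)) ω with hg
  set H : Set Ω := ⋃ i ∈ s, R i with hH
  have hHm : MeasurableSet H := Finset.measurableSet_biUnion s hR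
  have hi : ∀ A : Set Ω, MeasurableSet A →
      Integrable (Set.indicator A (fun _ => (1 : ℝ))) μ := fun A hA =>
    (integrable_const (1 : ℝ)).indicator hA
  have hint : ∀ A : Set Ω, MeasurableSet A →
      ∫ ω, Set.indicator A (fun _ => (1 : ℝ)) ω ∂μ = μ.real A := by
    intro A hA
    rw [integral_indicator hA]
    simp
  have hfg : ∀ ω, g ω = f ω * f ω := by
    intro ω
    simp only [hf, hg]
    rw [Finset.sum_mul_sum]
    apply Finset.sum_congr rfl
    intro i _
    apply Finset.sum_congr rfl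
    intro j _
    by_cases h1 : ω ∈ R i <;> by_cases h2 : ω ∈ R j <;> simp [h1, h2]
  have hpt : ∀ ω, 2 * N * f ω - g ω ≤ N ^ 2 * Set.indicator H (fun _ => (1 : ℝ)) ω := by
    intro ω
    rw [hfg]
    by_cases h : ω ∈ H
    · rw [Set.indicator_of_mem h]
      nlinarith [sq_nonneg (N - f ω)]
    · have hf0 : f ω = 0 := by
        simp only [hf]
        apply Finset.sum_eq_zero
        intro i hi'
        have : ω ∉ R i := by
          intro h1
          apply h
          rw [hH, Set.mem_iUnion₂]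
          exact ⟨i, hi', h1⟩
        rw [Set.indicator_of_notMem this, mul_zero]
      rw [hf0, Set.indicator_of_notMem h]
      simp
  have hfi : Integrable f μ := integrable_finsetSum _ fun i hi' => (hi _ (hR i hi')).const_mul _
  have hgi : Integrable g μ := integrable_finsetSum _ fun i hi' => integrable_finsetSum _
    fun j hj' => (hi _ ((hR i hi').inter (hR j hj'))).const_mul _
  have h1 : ∫ ω, (2 * N * f ω - g ω) ∂μ ≤ ∫ ω, N ^ 2 * Set.indicator H (fun _ => (1 : ℝ)) ω ∂μ :=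
    integral_mono ((hfi.const_mul _).sub hgi) ((hi H hHm).const_mul _) hpt
  rw [integral_sub (hfi.const_mul _) hgi, integral_const_mul, integral_const_mul, hint H hHm] at h1
  have h2 : ∫ ω, f ω ∂μ = N := by
    simp only [hf]
    rw [integral_finsetSum _ fun i hi' => (hi _ (hR i hi')).const_mul _]
    have : ∀ i ∈ s, ∫ ω, c i * Set.indicator (R i) (fun _ => (1 : ℝ)) ω ∂μ = 1 := by
      intro i hi'
      rw [integral_const_mul, hint _ (hR i hi')]
      exact hc i hi'
    rw [Finset.sum_congr rfl this, Finset.sum_const, nsmul_eq_mul, mul_one]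
  have h3 : ∫ ω, g ω ∂μ = ∑ i ∈ s, ∑ j ∈ s, c i * c j * μ.real (R i ∩ R j) := by
    simp only [hg]
    rw [integral_finsetSum _ fun i hi' => integrable_finsetSum _
      fun j hj' => (hi _ ((hR i hi').inter (hR j hj'))).const_mul _]
    apply Finset.sum_congr rfl
    intro i hi'
    rw [integral_finsetSum _ fun j hj' => (hi _ ((hR i hi').inter (hR j hj'))).const_mul _]
    apply Finset.sum_congr rfl
    intro j hj'
    rw [integral_const_mul, hint _ ((hR i hi').inter (hR j hj'))]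
  rw [h2, h3] at h1
  nlinarith

end

/-- the pairs `u < v` of a vertex set -/
def pr {n : ℕ} (S : Finset (Fin n)) : Finset (Fin n × Fin n) :=
  (S ×ˢ S).filter (fun e => e.1 < e.2)

lemma mem_pr {n : ℕ} {S : Finset (Fin n)} {e : Fin n × Fin n} :
    e ∈ pr S ↔ (e.1 ∈ S ∧ e.2 ∈ S) ∧ e.1 < e.2 := by
  unfold pr
  rw [Finset.mem_filter, Finset.mem_product]

lemma pr_inter {n : ℕ} (S T : Finset (Fin n)) : pr S ∩ pr T = pr (S ∩ T) := by
  ext e
  simp only [Finset.mem_inter, mem_pr]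
  tauto

lemma sum_pr {n : ℕ} (A : Fin n → Fin n → ℝ) (hs : ∀ u v, A u v = A v u) (h0 : ∀ v, A v v = 0)
    (S : Finset (Fin n)) : 2 * ∑ e ∈ pr S, A e.1 e.2 = ∑ v ∈ S, dg A S v := by
  have h1 : ∑ v ∈ S, dg A S v = ∑ e ∈ S ×ˢ S, A e.1 e.2 := by
    rw [Finset.sum_product]
    rfl
  have h2 : ∑ e ∈ S ×ˢ S, A e.1 e.2 = ∑ e ∈ pr S, A e.1 e.2 +
      ∑ e ∈ (S ×ˢ S).filter (fun e => ¬ e.1 < e.2), A e.1 e.2 := by
    unfold pr
    exact (Finset.sum_filter_add_sum_filter_not _ _ _).symm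
  have h3 : ∑ e ∈ (S ×ˢ S).filter (fun e => ¬ e.1 < e.2), A e.1 e.2 =
      ∑ e ∈ (S ×ˢ S).filter (fun e => e.2 < e.1), A e.1 e.2 := by
    symm
    apply Finset.sum_subset
    · intro e he
      rw [Finset.mem_filter] at he ⊢
      exact ⟨he.1, not_lt.2 he.2.le⟩
    · intro e he he'
      rw [Finset.mem_filter] at he he'
      have : e.1 = e.2 := by
        by_contra hne
        apply he'
        exact ⟨he.1, lt_of_le_of_ne (not_lt.1 he.2) (Ne.symm hne)⟩
      rw [this, h0]
  have h4 : ∑ e ∈ (S ×ˢ S).filter (fun e => e.2 < e.1), A e.1 e.2 = ∑ e ∈ pr S, A e.1 e.2 := by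
    apply Finset.sum_nbij' (fun e => (e.2, e.1)) (fun e => (e.2, e.1))
    · intro e he
      rw [Finset.mem_filter, Finset.mem_product] at he
      rw [mem_pr]
      exact ⟨⟨he.1.2, he.1.1⟩, he.2⟩
    · intro e he
      rw [mem_pr] at he
      rw [Finset.mem_filter, Finset.mem_product]
      exact ⟨⟨he.1.2, he.1.1⟩, he.2⟩
    · intro e _; rfl
    · intro e _; rfl
    · intro e _
      exact hs _ _
  rw [h1, h2, h3, h4]
  ring

section
variable {Ω : Type*} [MeasurableSpace Ω] {μ : Measure Ω} {n : ℕ}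

/-- independence of the edges, in the form of a product formula -/
def ProdForm (μ : Measure Ω) (G : Ω → SimpleGraph (Fin n)) : Prop :=
  ∀ F : Finset (Fin n × Fin n), (∀ e ∈ F, e.1 < e.2) →
    μ.real {ω | ∀ e ∈ F, (G ω).Adj e.1 e.2} = ∏ e ∈ F, μ.real {ω | (G ω).Adj e.1 e.2}

/-- the event that `S` is a clique -/
def cl (G : Ω → SimpleGraph (Fin n)) (S : Finset (Fin n)) : Set Ω :=
  {ω | ∀ e ∈ pr S, (G ω).Adj e.1 e.2}

lemma mem_cl {G : Ω → SimpleGraph (Fin n)} {S : Finset (Fin n)} {ω : Ω} :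
    ω ∈ cl G S ↔ (G ω).IsClique (S : Set (Fin n)) := by
  unfold cl
  rw [Set.mem_ofPred_eq, SimpleGraph.isClique_iff]
  constructor
  · intro h u hu v hv huv
    rcases lt_or_gt_of_ne huv with h1 | h1
    · exact h (u, v) (mem_pr.2 ⟨⟨hu, hv⟩, h1⟩)
    · exact (h (v, u) (mem_pr.2 ⟨⟨hv, hu⟩, h1⟩)).symm
  · intro h e he
    rw [mem_pr] at he
    exact h he.1.1 he.1.2 he.2.ne

lemma measurable_cl {G : Ω → SimpleGraph (Fin n)}
    (hG : ∀ u v, MeasurableSet {ω | (G ω).Adj u v}) (S : Finset (Fin n)) :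
    MeasurableSet (cl G S) := by
  have : cl G S = ⋂ e ∈ pr S, {ω | (G ω).Adj e.1 e.2} := by
    ext ω
    simp [cl]
  rw [this]
  exact Finset.measurableSet_biInter _ fun e _ => hG _ _

/-- logarithmic weights -/
noncomputable def wt (μ : Measure Ω) (G : Ω → SimpleGraph (Fin n)) (u v : Fin n) : ℝ :=
  if u = v then 0 else -Real.log (μ.real {ω | (G ω).Adj u v})

lemma wt_symm (G : Ω → SimpleGraph (Fin n)) (u v : Fin n) : wt μ G u v = wt μ G v u := by
  unfold wt
  by_cases h : u = v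
  · rw [h]
  · rw [if_neg h, if_neg (Ne.symm h)]
    congr 3
    ext ω
    exact SimpleGraph.adj_comm _ _ _

lemma wt_self (G : Ω → SimpleGraph (Fin n)) (v : Fin n) : wt μ G v v = 0 := by
  unfold wt
  rw [if_pos rfl]

lemma cl_inter {G : Ω → SimpleGraph (Fin n)} (hp : ProdForm μ G)
    (hq : ∀ u v, u ≠ v → 0 < μ.real {ω | (G ω).Adj u v}) (S T : Finset (Fin n)) :
    (∏ e ∈ pr S, μ.real {ω | (G ω).Adj e.1 e.2})⁻¹ *
      (∏ e ∈ pr T, μ.real {ω | (G ω).Adj e.1 e.2})⁻¹ * μ.real (cl G S ∩ cl G T) =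
      Real.exp (∑ e ∈ pr (S ∩ T), wt μ G e.1 e.2) := by
  classical
  have h1 : cl G S ∩ cl G T = {ω | ∀ e ∈ pr S ∪ pr T, (G ω).Adj e.1 e.2} := by
    ext ω
    simp only [cl, Set.mem_inter_iff, Set.mem_ofPred_eq, Finset.mem_union]
    constructor
    · rintro ⟨h2, h3⟩ e (he | he)
      · exact h2 e he
      · exact h3 e he
    · intro h
      exact ⟨fun e he => h e (Or.inl he), fun e he => h e (Or.inr he)⟩
  rw [h1, hp]
  · have hpos : ∀ F : Finset (Fin n × Fin n), (∀ e ∈ F, e.1 < e.2) →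
        0 < ∏ e ∈ F, μ.real {ω | (G ω).Adj e.1 e.2} := fun F hF =>
      Finset.prod_pos fun e he => hq _ _ (hF e he).ne
    have h2 := Finset.prod_union_inter (s₁ := pr S) (s₂ := pr T)
      (f := fun e => μ.real {ω | (G ω).Adj e.1 e.2})
    have hS := hpos (pr S) (fun e he => (mem_pr.1 he).2)
    have hT := hpos (pr T) (fun e he => (mem_pr.1 he).2)
    have hST := hpos (pr (S ∩ T)) (fun e he => (mem_pr.1 he).2)
    rw [pr_inter] at h2
    have h3 : Real.exp (∑ e ∈ pr (S ∩ T), wt μ G e.1 e.2) =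
        (∏ e ∈ pr (S ∩ T), μ.real {ω | (G ω).Adj e.1 e.2})⁻¹ := by
      rw [Real.exp_sum, ← Finset.prod_inv_distrib]
      apply Finset.prod_congr rfl
      intro e he
      have hne := (mem_pr.1 he).2.ne
      unfold wt
      rw [if_neg hne, Real.exp_neg, Real.exp_log (hq _ _ hne)]
    rw [h3]
    field_simp
    linarith
  · intro e he
    rw [Finset.mem_union, mem_pr, mem_pr] at he
    rcases he with he | he <;> exact he.2

end

end Pool.Agent.W167.RN
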